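import Pool.Agent.Lib.MP_331bf5_ag.Fields

/-!
# The derivative of the chart
-/

set_option autoImplicit false

open Complex Set Filter Topology MeasureTheory

namespace Pool.Agent.Lib.MP_331bf5_ag

/-- The derivative of the second coordinate. -/
theorem y_deriv (c : ℂ) (hc : c ≠ 0) (q : ℂ × ℂ) : ∃ L : ℂ × (ℂ × ℂ) →L[ℂ] ℂ,
    HasFDerivAt (fun r : ℂ × (ℂ × ℂ) => -(r.1 + r.2.1 ^ 3 + r.2.2 ^ 2) / r.1 ^ 2) L (c, q) ∧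
    ∀ (k : ℂ) (h : ℂ × ℂ), L (k, h) = -(k + 3 * q.1 ^ 2 * h.1 + 2 * q.2 * h.2) / c ^ 2 +
      2 * (c + q.1 ^ 3 + q.2 ^ 2) * k / c ^ 3 := by
  have h0 : HasFDerivAt (fun r : ℂ × (ℂ × ℂ) => r.1) (ContinuousLinearMap.fst ℂ ℂ (ℂ × ℂ)) (c, q) :=
    (ContinuousLinearMap.fst ℂ ℂ (ℂ × ℂ)).hasFDerivAt
  have h1 : HasFDerivAt (fun r : ℂ × (ℂ × ℂ) => r.2.1)
      ((ContinuousLinearMap.fst ℂ ℂ ℂ).comp (ContinuousLinearMap.snd ℂ ℂ (ℂ × ℂ))) (c, q) :=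
    ((ContinuousLinearMap.fst ℂ ℂ ℂ).comp (ContinuousLinearMap.snd ℂ ℂ (ℂ × ℂ))).hasFDerivAt
  have h2 : HasFDerivAt (fun r : ℂ × (ℂ × ℂ) => r.2.2)
      ((ContinuousLinearMap.snd ℂ ℂ ℂ).comp (ContinuousLinearMap.snd ℂ ℂ (ℂ × ℂ))) (c, q) :=
    ((ContinuousLinearMap.snd ℂ ℂ ℂ).comp (ContinuousLinearMap.snd ℂ ℂ (ℂ × ℂ))).hasFDerivAt
  have hn := ((h0.add (h1.pow 3)).add (h2.pow 2)).neg
  have hg : HasDerivAt (fun x : ℂ => (x ^ 2)⁻¹) (-(2 * c) / (c ^ 2) ^ 2) c := by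
    have e1 := ((hasDerivAt_id c).pow 2).inv (pow_ne_zero 2 hc)
    refine e1.congr_deriv ?_
    simp
  have hd := hg.comp_hasFDerivAt (c, q) h0
  have hm := hn.mul hd
  refine ⟨_, hm, ?_⟩
  intro k h
  simp
  field_simp
  ring

/-- The derivative of the chart. -/
theorem ch_deriv (c : ℂ) (hc : c ≠ 0) (q : ℂ × ℂ) : ∃ L : ℂ × (ℂ × ℂ) →L[ℂ] (Fin 4 → ℂ),
    HasFDerivAt (fun r : ℂ × (ℂ × ℂ) => ch r.1 r.2) L (c, q) ∧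
    ∀ (k : ℂ) (h : ℂ × ℂ), L (k, h) = ![k, -(k + 3 * q.1 ^ 2 * h.1 + 2 * q.2 * h.2) / c ^ 2 +
      2 * (c + q.1 ^ 3 + q.2 ^ 2) * k / c ^ 3, h.1, h.2] := by
  obtain ⟨L, hL, hv⟩ := y_deriv c hc q
  refine ⟨ContinuousLinearMap.pi ![ContinuousLinearMap.fst ℂ ℂ (ℂ × ℂ), L,
    (ContinuousLinearMap.fst ℂ ℂ ℂ).comp (ContinuousLinearMap.snd ℂ ℂ (ℂ × ℂ)),
    (ContinuousLinearMap.snd ℂ ℂ ℂ).comp (ContinuousLinearMap.snd ℂ ℂ (ℂ × ℂ))], ?_, ?_⟩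
  · rw [hasFDerivAt_pi]
    intro i
    fin_cases i
    · exact (ContinuousLinearMap.fst ℂ ℂ (ℂ × ℂ)).hasFDerivAt
    · exact hL
    · exact ((ContinuousLinearMap.fst ℂ ℂ ℂ).comp (ContinuousLinearMap.snd ℂ ℂ (ℂ × ℂ))).hasFDerivAt
    · exact ((ContinuousLinearMap.snd ℂ ℂ ℂ).comp (ContinuousLinearMap.snd ℂ ℂ (ℂ × ℂ))).hasFDerivAt
  · intro k h
    funext i
    fin_cases i
    · rfl
    · exact hv k h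
    · rfl
    · rfl

/-- The chart is holomorphic. -/
theorem ch_contDiffAt (n : ℕ) (c : ℂ) (hc : c ≠ 0) (q : ℂ × ℂ) :
    ContDiffAt ℂ n (fun r : ℂ × (ℂ × ℂ) => ch r.1 r.2) (c, q) := by
  rw [contDiffAt_pi]
  intro i
  fin_cases i
  · exact contDiffAt_fst
  · show ContDiffAt ℂ n (fun r : ℂ × (ℂ × ℂ) => -(r.1 + r.2.1 ^ 3 + r.2.2 ^ 2) / r.1 ^ 2) (c, q)
    have h1 : ContDiffAt ℂ n (fun r : ℂ × (ℂ × ℂ) => -(r.1 + r.2.1 ^ 3 + r.2.2 ^ 2)) (c, q) := by fun_prop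
    have h2 : ContDiffAt ℂ n (fun r : ℂ × (ℂ × ℂ) => r.1 ^ 2) (c, q) := by fun_prop
    exact h1.div h2 (pow_ne_zero 2 hc)
  · show ContDiffAt ℂ n (fun r : ℂ × (ℂ × ℂ) => r.2.1) (c, q)
    fun_prop
  · show ContDiffAt ℂ n (fun r : ℂ × (ℂ × ℂ) => r.2.2) (c, q)
    fun_prop

/-- The derivative of the chart of one fibre. -/
theorem chc_deriv (c : ℂ) (hc : c ≠ 0) (q : ℂ × ℂ) : ∃ L : ℂ × ℂ →L[ℂ] (Fin 4 → ℂ),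
    HasFDerivAt (ch c) L q ∧
    ∀ h : ℂ × ℂ, L h = ![0, -(3 * q.1 ^ 2 * h.1 + 2 * q.2 * h.2) / c ^ 2, h.1, h.2] := by
  obtain ⟨L, hL, hv⟩ := ch_deriv c hc q
  have h1 : HasFDerivAt (fun q : ℂ × ℂ => ((c, q) : ℂ × (ℂ × ℂ))) (ContinuousLinearMap.inr ℂ ℂ (ℂ × ℂ)) q :=
    hasFDerivAt_prodMk_right c q
  refine ⟨L.comp (ContinuousLinearMap.inr ℂ ℂ (ℂ × ℂ)), hL.comp q h1, ?_⟩
  intro h
  show L (0, h) = _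
  rw [hv]
  funext i
  fin_cases i
  · rfl
  · show -(0 + 3 * q.1 ^ 2 * h.1 + 2 * q.2 * h.2) / c ^ 2 + 2 * (c + q.1 ^ 3 + q.2 ^ 2) * 0 / c ^ 3 =
      -(3 * q.1 ^ 2 * h.1 + 2 * q.2 * h.2) / c ^ 2
    ring
  · rfl
  · rfl

end Pool.Agent.Lib.MP_331bf5_ag
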