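import Mathlib

/-!
# The Russell cubic
-/

set_option autoImplicit false

namespace Pool.Agent.Lib.MP_331bf5_ag

/-- The Russell cubic `x + x² y + z³ + t² = 0`, with the coordinates `p 0 = x`, `p 1 = y`, `p 2 = z`, `p 3 = t`. -/
def RussellCubic : Set (Fin 4 → ℂ) := {p | p 0 + (p 0) ^ 2 * p 1 + (p 2) ^ 3 + (p 3) ^ 2 = 0}

/-- The point of the fibre `x = c` of the cubic with the coordinates `q = (z, t)` (for `c ≠ 0`: the fibre is the plane with
these coordinates). -/
noncomputable def ch (c : ℂ) (q : ℂ × ℂ) : Fin 4 → ℂ := ![c, -(c + q.1 ^ 3 + q.2 ^ 2) / c ^ 2, q.1, q.2]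

end Pool.Agent.Lib.MP_331bf5_ag
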