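import Pool.Agent.Lib.MP_331bf5_ag.Loop
import Pool.Agent.Lib.MP_331bf5_ag.Defs

/-!
# Vector fields on the Russell cubic
-/

set_option autoImplicit false

open Complex Set Filter Topology MeasureTheory

namespace Pool.Agent.Lib.MP_331bf5_ag

theorem ch_mem (c : ℂ) (hc : c ≠ 0) (q : ℂ × ℂ) : ch c q ∈ RussellCubic := by
  show c + c ^ 2 * (-(c + q.1 ^ 3 + q.2 ^ 2) / c ^ 2) + q.1 ^ 3 + q.2 ^ 2 = 0
  field_simp
  ring

/-- A point of the cubic with `x ≠ 0` is in the image of the chart. -/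
theorem ch_eq (p : Fin 4 → ℂ) (hp : p ∈ RussellCubic) (h0 : p 0 ≠ 0) : ch (p 0) (p 2, p 3) = p := by
  have h1 : p 0 + (p 0) ^ 2 * p 1 + (p 2) ^ 3 + (p 3) ^ 2 = 0 := hp
  have h2 : -(p 0 + p 2 ^ 3 + p 3 ^ 2) / p 0 ^ 2 = p 1 := by
    field_simp
    linear_combination -h1
  unfold ch
  funext i
  fin_cases i
  · rfl
  · exact h2
  · rfl
  · rfl

/-- Two of the coefficients vanish on the line. -/
theorem lim_aux (A B C : (Fin 4 → ℂ) → ℂ) (hA : Continuous A) (hB : Continuous B) (hC : Continuous C)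
    (h : ∀ p ∈ RussellCubic, p 0 ≠ 0 → (p 0) ^ 2 * C p + 3 * (p 2) ^ 2 * A p + 2 * p 3 * B p = 0) (y : ℂ) :
    A ![0, y, 0, 0] = 0 ∧ B ![0, y, 0, 0] = 0 := by
  have hs : Tendsto (fun s : ℂ => s) (𝓝[≠] 0) (𝓝 0) := tendsto_id.mono_left nhdsWithin_le_nhds
  constructor
  · have hu : Tendsto (fun s : ℂ => 1 + y * s ^ 3) (𝓝[≠] 0) (𝓝 1) := by
      have h1 : Continuous (fun s : ℂ => 1 + y * s ^ 3) := by fun_prop
      have h2 := h1.tendsto 0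
      simp only [ne_eq, OfNat.ofNat_ne_zero, not_false_eq_true, zero_pow, mul_zero, add_zero] at h2
      exact h2.mono_left nhdsWithin_le_nhds
    have hp : Tendsto (fun s : ℂ => (![-(s ^ 3) * (1 + y * s ^ 3), y / (1 + y * s ^ 3) ^ 2, s, 0] : Fin 4 → ℂ))
        (𝓝[≠] 0) (𝓝 ![0, y, 0, 0]) := by
      rw [tendsto_pi_nhds]
      intro i
      fin_cases i
      · have h1 := ((hs.pow 3).neg).mul hu
        simpa using h1
      · have h1 := (tendsto_const_nhds (x := y)).div (hu.pow 2) (by norm_num)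
        have h2 : (y / 1 ^ 2 : ℂ) = y := by norm_num
        rw [h2] at h1
        exact h1
      · exact hs
      · exact tendsto_const_nhds
    have hAl := (hA.tendsto _).comp hp
    have hCl := (hC.tendsto _).comp hp
    have hR : Tendsto (fun s : ℂ => -(s ^ 4 * (1 + y * s ^ 3) ^ 2 / 3) *
        C ![-(s ^ 3) * (1 + y * s ^ 3), y / (1 + y * s ^ 3) ^ 2, s, 0]) (𝓝[≠] 0) (𝓝 0) := by
      have h1 := ((((hs.pow 4).mul (hu.pow 2)).div_const 3).neg).mul hCl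
      have h2 : -(0 ^ 4 * 1 ^ 2 / 3 : ℂ) * C ![0, y, 0, 0] = 0 := by ring
      rw [h2] at h1
      exact h1
    refine tendsto_nhds_unique hAl (hR.congr' ?_)
    filter_upwards [hu.eventually_ne one_ne_zero, self_mem_nhdsWithin] with s h1 h2
    have h2' : s ≠ 0 := h2
    have h3 := h ![-(s ^ 3) * (1 + y * s ^ 3), y / (1 + y * s ^ 3) ^ 2, s, 0] (by
      show -(s ^ 3) * (1 + y * s ^ 3) + (-(s ^ 3) * (1 + y * s ^ 3)) ^ 2 * (y / (1 + y * s ^ 3) ^ 2) + s ^ 3 +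
        0 ^ 2 = 0
      have e1 : (-(s ^ 3) * (1 + y * s ^ 3)) ^ 2 * (y / (1 + y * s ^ 3) ^ 2) = s ^ 6 * y := by
        generalize 1 + y * s ^ 3 = u at h1
        field_simp
        try ring
      rw [e1]
      ring) (mul_ne_zero (neg_ne_zero.2 (pow_ne_zero _ h2')) h1)
    have h4 : (-(s ^ 3) * (1 + y * s ^ 3)) ^ 2 * C ![-(s ^ 3) * (1 + y * s ^ 3), y / (1 + y * s ^ 3) ^ 2, s, 0] +
        3 * s ^ 2 * A ![-(s ^ 3) * (1 + y * s ^ 3), y / (1 + y * s ^ 3) ^ 2, s, 0] +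
        2 * 0 * B ![-(s ^ 3) * (1 + y * s ^ 3), y / (1 + y * s ^ 3) ^ 2, s, 0] = 0 := h3
    show -(s ^ 4 * (1 + y * s ^ 3) ^ 2 / 3) * C ![-(s ^ 3) * (1 + y * s ^ 3), y / (1 + y * s ^ 3) ^ 2, s, 0] =
      A ![-(s ^ 3) * (1 + y * s ^ 3), y / (1 + y * s ^ 3) ^ 2, s, 0]
    generalize C ![-(s ^ 3) * (1 + y * s ^ 3), y / (1 + y * s ^ 3) ^ 2, s, 0] = γ at *
    generalize A ![-(s ^ 3) * (1 + y * s ^ 3), y / (1 + y * s ^ 3) ^ 2, s, 0] = α at *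
    have h5 : s ^ 2 * (-(s ^ 4 * (1 + y * s ^ 3) ^ 2 / 3) * γ - α) = 0 := by
      linear_combination (-1 / 3 : ℂ) * h4
    rcases mul_eq_zero.1 h5 with h6 | h6
    · exact absurd h6 (pow_ne_zero _ h2')
    · exact sub_eq_zero.1 h6
  · have hu : Tendsto (fun s : ℂ => 1 + y * s ^ 2) (𝓝[≠] 0) (𝓝 1) := by
      have h1 : Continuous (fun s : ℂ => 1 + y * s ^ 2) := by fun_prop
      have h2 := h1.tendsto 0
      simp only [ne_eq, OfNat.ofNat_ne_zero, not_false_eq_true, zero_pow, mul_zero, add_zero] at h2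
      exact h2.mono_left nhdsWithin_le_nhds
    have hp : Tendsto (fun s : ℂ => (![-(s ^ 2) * (1 + y * s ^ 2), y / (1 + y * s ^ 2) ^ 2, 0, s] : Fin 4 → ℂ))
        (𝓝[≠] 0) (𝓝 ![0, y, 0, 0]) := by
      rw [tendsto_pi_nhds]
      intro i
      fin_cases i
      · have h1 := ((hs.pow 2).neg).mul hu
        simpa using h1
      · have h1 := (tendsto_const_nhds (x := y)).div (hu.pow 2) (by norm_num)
        have h2 : (y / 1 ^ 2 : ℂ) = y := by norm_num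
        rw [h2] at h1
        exact h1
      · exact tendsto_const_nhds
      · exact hs
    have hBl := (hB.tendsto _).comp hp
    have hCl := (hC.tendsto _).comp hp
    have hR : Tendsto (fun s : ℂ => -(s ^ 3 * (1 + y * s ^ 2) ^ 2 / 2) *
        C ![-(s ^ 2) * (1 + y * s ^ 2), y / (1 + y * s ^ 2) ^ 2, 0, s]) (𝓝[≠] 0) (𝓝 0) := by
      have h1 := ((((hs.pow 3).mul (hu.pow 2)).div_const 2).neg).mul hCl
      have h2 : -(0 ^ 3 * 1 ^ 2 / 2 : ℂ) * C ![0, y, 0, 0] = 0 := by ring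
      rw [h2] at h1
      exact h1
    refine tendsto_nhds_unique hBl (hR.congr' ?_)
    filter_upwards [hu.eventually_ne one_ne_zero, self_mem_nhdsWithin] with s h1 h2
    have h2' : s ≠ 0 := h2
    have h3 := h ![-(s ^ 2) * (1 + y * s ^ 2), y / (1 + y * s ^ 2) ^ 2, 0, s] (by
      show -(s ^ 2) * (1 + y * s ^ 2) + (-(s ^ 2) * (1 + y * s ^ 2)) ^ 2 * (y / (1 + y * s ^ 2) ^ 2) + 0 ^ 3 +
        s ^ 2 = 0
      have e1 : (-(s ^ 2) * (1 + y * s ^ 2)) ^ 2 * (y / (1 + y * s ^ 2) ^ 2) = s ^ 4 * y := by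
        generalize 1 + y * s ^ 2 = u at h1
        field_simp
        try ring
      rw [e1]
      ring) (mul_ne_zero (neg_ne_zero.2 (pow_ne_zero _ h2')) h1)
    have h4 : (-(s ^ 2) * (1 + y * s ^ 2)) ^ 2 * C ![-(s ^ 2) * (1 + y * s ^ 2), y / (1 + y * s ^ 2) ^ 2, 0, s] +
        3 * 0 ^ 2 * A ![-(s ^ 2) * (1 + y * s ^ 2), y / (1 + y * s ^ 2) ^ 2, 0, s] +
        2 * s * B ![-(s ^ 2) * (1 + y * s ^ 2), y / (1 + y * s ^ 2) ^ 2, 0, s] = 0 := h3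
    show -(s ^ 3 * (1 + y * s ^ 2) ^ 2 / 2) * C ![-(s ^ 2) * (1 + y * s ^ 2), y / (1 + y * s ^ 2) ^ 2, 0, s] =
      B ![-(s ^ 2) * (1 + y * s ^ 2), y / (1 + y * s ^ 2) ^ 2, 0, s]
    generalize C ![-(s ^ 2) * (1 + y * s ^ 2), y / (1 + y * s ^ 2) ^ 2, 0, s] = γ at *
    generalize B ![-(s ^ 2) * (1 + y * s ^ 2), y / (1 + y * s ^ 2) ^ 2, 0, s] = β at *
    have h5 : s * (-(s ^ 3 * (1 + y * s ^ 2) ^ 2 / 2) * γ - β) = 0 := by
      linear_combination (-1 / 2 : ℂ) * h4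
    rcases mul_eq_zero.1 h5 with h6 | h6
    · exact absurd h6 h2'
    · exact sub_eq_zero.1 h6

/-- The Poincaré lemma for holomorphic forms on the plane. -/
theorem poinc (ω : ℂ × ℂ → (ℂ × ℂ →L[ℂ] ℂ)) (ω' : ℂ × ℂ → (ℂ × ℂ →L[ℂ] (ℂ × ℂ →L[ℂ] ℂ)))
    (h : ∀ p, HasFDerivAt ω (ω' p) p) (hs : ∀ p a b, ω' p a b = ω' p b a) :
    ∃ Φ : ℂ × ℂ → ℂ, ∀ p, HasFDerivAt Φ (ω p) p := by
  have h1 : ∀ p, HasFDerivAt ω ((ω' p).restrictScalars ℝ) p := fun p => (h p).restrictScalars ℝ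
  obtain ⟨Φ, hΦ⟩ := (convex_univ (𝕜 := ℝ) (E := ℂ × ℂ)).exists_forall_hasFDerivAt_of_fderiv_symmetric isOpen_univ
    (ω := ω) (fun p _ => (h1 p).differentiableAt.differentiableWithinAt) (fun p _ a b => by
      rw [(h1 p).fderiv]
      exact hs p a b)
  exact ⟨Φ, fun p => hΦ p (mem_univ p)⟩

end Pool.Agent.Lib.MP_331bf5_ag
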