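import Pool.Agent.Lib.MP_331bf5_ag.PartA

/-!
# Biholomorphisms for which `x` is a function of two coordinates
-/

set_option autoImplicit false

open Complex Set Filter Topology MeasureTheory

namespace Pool.Agent.Lib.MP_331bf5_ag

/-- If `x = f(v, w)` on the cubic, then `v` and `w` are dependent on the fibres `x = c ≠ 0`. -/
theorem dep_of_func (v w : (Fin 4 → ℂ) → ℂ) (f : ℂ × ℂ → ℂ) (hv : Differentiable ℂ v) (hw : Differentiable ℂ w)
    (hf : Differentiable ℂ f) (h : ∀ p ∈ RussellCubic, p 0 = f (v p, w p)) (c : ℂ) (hc : c ≠ 0) (q : ℂ × ℂ) :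
    fderiv ℂ (fun q => v (ch c q)) q (1, 0) * fderiv ℂ (fun q => w (ch c q)) q (0, 1) =
      fderiv ℂ (fun q => v (ch c q)) q (0, 1) * fderiv ℂ (fun q => w (ch c q)) q (1, 0) := by
  obtain ⟨L, hL, -⟩ := ch_deriv c hc q
  have hU : ∀ u : (Fin 4 → ℂ) → ℂ, Differentiable ℂ u →
      HasFDerivAt (fun r : ℂ × (ℂ × ℂ) => u (ch r.1 r.2)) ((fderiv ℂ u (ch c q)).comp L) (c, q) := fun u hu =>
    (hu (ch c q)).hasFDerivAt.comp (c, q) hL
  have hU2 : ∀ u : (Fin 4 → ℂ) → ℂ, Differentiable ℂ u →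
      fderiv ℂ (fun q => u (ch c q)) q = ((fderiv ℂ u (ch c q)).comp L).comp (ContinuousLinearMap.inr ℂ ℂ (ℂ × ℂ)) :=
    fun u hu => ((hU u hu).comp q (hasFDerivAt_prodMk_right c q)).fderiv
  rw [hU2 v hv, hU2 w hw]
  show fderiv ℂ v (ch c q) (L (0, (1, 0))) * fderiv ℂ w (ch c q) (L (0, (0, 1))) =
    fderiv ℂ v (ch c q) (L (0, (0, 1))) * fderiv ℂ w (ch c q) (L (0, (1, 0)))
  have h1 : HasFDerivAt (fun r : ℂ × (ℂ × ℂ) => f (v (ch r.1 r.2), w (ch r.1 r.2)))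
      ((fderiv ℂ f (v (ch c q), w (ch c q))).comp (((fderiv ℂ v (ch c q)).comp L).prod
        ((fderiv ℂ w (ch c q)).comp L))) (c, q) :=
    (hf _).hasFDerivAt.comp (c, q) ((hU v hv).prodMk (hU w hw))
  have h2 : HasFDerivAt (fun r : ℂ × (ℂ × ℂ) => f (v (ch r.1 r.2), w (ch r.1 r.2)))
      (ContinuousLinearMap.fst ℂ ℂ (ℂ × ℂ)) (c, q) := by
    refine (ContinuousLinearMap.fst ℂ ℂ (ℂ × ℂ)).hasFDerivAt.congr_of_eventuallyEq ?_
    have h3 : ∀ᶠ r in 𝓝 ((c, q) : ℂ × (ℂ × ℂ)), r.1 ≠ 0 := continuousAt_fst.eventually_ne hc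
    filter_upwards [h3] with r hr
    exact (h _ (ch_mem r.1 hr r.2)).symm
  have h4 : ∀ k : ℂ × (ℂ × ℂ), fderiv ℂ f (v (ch c q), w (ch c q))
      (fderiv ℂ v (ch c q) (L k), fderiv ℂ w (ch c q) (L k)) = k.1 := by
    intro k
    exact congrArg (fun M : ℂ × (ℂ × ℂ) →L[ℂ] ℂ => M k) (h1.unique h2)
  have hlin : ∀ (g : ℂ × ℂ →L[ℂ] ℂ) (a b : ℂ), g (a, b) = a * g (1, 0) + b * g (0, 1) := by
    intro g a b
    have e1 : ((a, b) : ℂ × ℂ) = a • ((1, 0) : ℂ × ℂ) + b • ((0, 1) : ℂ × ℂ) := by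
      refine Prod.ext ?_ ?_ <;> simp
    rw [e1, map_add, map_smul, map_smul, smul_eq_mul, smul_eq_mul]
  have h5 := h4 (1, (0, 0))
  have h6 := h4 (0, (1, 0))
  have h7 := h4 (0, (0, 1))
  rw [hlin] at h5 h6 h7
  generalize fderiv ℂ f (v (ch c q), w (ch c q)) (1, 0) = α at *
  generalize fderiv ℂ f (v (ch c q), w (ch c q)) (0, 1) = β at *
  simp only at h5 h6 h7
  by_cases hα : α = 0
  · have hβ : β ≠ 0 := by
      intro hβ
      rw [hα, hβ, mul_zero, mul_zero, add_zero] at h5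
      exact zero_ne_one h5
    rw [hα, mul_zero, zero_add] at h6 h7
    have h8 := (mul_eq_zero.1 h6).resolve_right hβ
    have h9 := (mul_eq_zero.1 h7).resolve_right hβ
    rw [h8, h9, mul_zero, mul_zero]
  · have h8 : α * (fderiv ℂ v (ch c q) (L (0, (1, 0))) * fderiv ℂ w (ch c q) (L (0, (0, 1))) -
        fderiv ℂ v (ch c q) (L (0, (0, 1))) * fderiv ℂ w (ch c q) (L (0, (1, 0)))) = 0 := by
      linear_combination fderiv ℂ w (ch c q) (L (0, (0, 1))) * h6 - fderiv ℂ w (ch c q) (L (0, (1, 0))) * h7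
    exact sub_eq_zero.1 ((mul_eq_zero.1 h8).resolve_left hα)

/-- There is no biholomorphism with `C³` for which `x` is a function of two of the coordinates. -/
theorem no_biholo (F : (Fin 3 → ℂ) → (Fin 4 → ℂ)) (G : (Fin 4 → ℂ) → (Fin 3 → ℂ)) (hF : Differentiable ℂ F)
    (hG : Differentiable ℂ G) (hFX : ∀ u, F u ∈ RussellCubic) (hGF : ∀ u, G (F u) = u) (hFG : ∀ p ∈ RussellCubic, F (G p) = p)
    (hx : ∀ u u' : Fin 3 → ℂ, u 1 = u' 1 → u 2 = u' 2 → F u 0 = F u' 0) : False := by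
  have hGi : ∀ i, Differentiable ℂ (fun p => G p i) := fun i => differentiable_pi.1 hG i
  have hfd : Differentiable ℂ (fun s : ℂ × ℂ => F ![0, s.1, s.2] 0) := by
    have h1 : Differentiable ℂ (fun s : ℂ × ℂ => (![0, s.1, s.2] : Fin 3 → ℂ)) := by
      rw [differentiable_pi]
      intro i
      fin_cases i
      · exact differentiable_const _
      · exact differentiable_fst
      · exact differentiable_snd
    exact (differentiable_pi.1 hF 0).comp h1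
  have h1 := dependent (fun p => G p 1) (fun p => G p 2) (hGi 1) (hGi 2)
    (dep_of_func _ _ (fun s : ℂ × ℂ => F ![0, s.1, s.2] 0) (hGi 1) (hGi 2) hfd (by
      intro p hp
      have h2 : p 0 = F (G p) 0 := by rw [hFG p hp]
      rw [h2]
      exact hx _ _ rfl rfl)) 0
  have hp : (![0, 0, 0, 0] : Fin 4 → ℂ) ∈ RussellCubic := by
    show (0 : ℂ) + 0 ^ 2 * 0 + 0 ^ 3 + 0 ^ 2 = 0
    ring
  obtain ⟨u, hu⟩ : ∃ u, u = G ![0, 0, 0, 0] := ⟨_, rfl⟩
  have hFu : F u = ![0, 0, 0, 0] := by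
    rw [hu]
    exact hFG _ hp
  -- the tangent vectors
  have hFi : ∀ i, HasFDerivAt (fun u => F u i) ((ContinuousLinearMap.proj i).comp (fderiv ℂ F u)) u := fun i =>
    hasFDerivAt_pi'.1 (hF u).hasFDerivAt i
  have ht : ∀ e : Fin 3 → ℂ, fderiv ℂ F u e 0 = 0 := by
    intro e
    have e1 := ((((hFi 0).add (((hFi 0).pow 2).mul (hFi 1))).add ((hFi 2).pow 3)).add ((hFi 3).pow 2))
    have e2 : HasFDerivAt (fun _ : Fin 3 → ℂ => (0 : ℂ)) (0 : (Fin 3 → ℂ) →L[ℂ] ℂ) u := hasFDerivAt_const 0 u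
    have e3 := e2.congr_of_eventuallyEq (f₁ := fun u => F u 0 + (F u 0) ^ 2 * F u 1 + (F u 2) ^ 3 + (F u 3) ^ 2)
      (Eventually.of_forall fun u => hFX u)
    have e4 := congrArg (fun M : (Fin 3 → ℂ) →L[ℂ] ℂ => M e) (e1.unique e3)
    have e5 : ∀ i, F u i = 0 := by
      intro i
      rw [hFu]
      fin_cases i <;> rfl
    simp [e5] at e4
    exact e4
  have hid : ∀ (e : Fin 3 → ℂ) (i : Fin 3), fderiv ℂ (fun p => G p i) ![0, 0, 0, 0] (fderiv ℂ F u e) = e i := by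
    intro e i
    have e1 : HasFDerivAt (fun u => G (F u) i) ((fderiv ℂ (fun p => G p i) (F u)).comp (fderiv ℂ F u)) u :=
      (hGi i (F u)).hasFDerivAt.comp u (hF u).hasFDerivAt
    have e2 : HasFDerivAt (fun u => G (F u) i) (ContinuousLinearMap.proj i : (Fin 3 → ℂ) →L[ℂ] ℂ) u := by
      refine (ContinuousLinearMap.proj i : (Fin 3 → ℂ) →L[ℂ] ℂ).hasFDerivAt.congr_of_eventuallyEq
        (Eventually.of_forall fun u => ?_)
      show G (F u) i = u i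
      rw [hGF]
    have e3 := congrArg (fun M : (Fin 3 → ℂ) →L[ℂ] ℂ => M e) (e1.unique e2)
    rw [hFu] at e3
    exact e3
  have h3 := h1 (fderiv ℂ F u (Pi.single 1 1)) (fderiv ℂ F u (Pi.single 2 1)) (ht _) (ht _)
  rw [hid, hid, hid, hid] at h3
  simp at h3

end Pool.Agent.Lib.MP_331bf5_ag
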