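import Mathlib

/-!
# The vanishing cycle of the cusp

`z³ + t² = -(c + c² y₀)` is the curve `y = y₀` in the fibre `x = c` of the Russell cubic. The loop consists of two paths
`(z, t) = (l² e r, l³ σ (1 - s) Q)`, `r = 2 s - s²`, `Q = √(1 + r + r²)`, `0 ≤ s ≤ 2`, `e³ = -1`, `σ² = -1`, `l⁶ = c + c² y₀`.
-/

set_option autoImplicit false

open Complex Set Filter Topology MeasureTheory

namespace Pool.Agent.Lib.MP_331bf5_ag

/-- `1 + r + r²`, `r = 2 s - s²`. -/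
noncomputable def uu (s : ℝ) : ℝ := 1 + (2 * s - s ^ 2) + (2 * s - s ^ 2) ^ 2

theorem uu_pos (s : ℝ) : 0 < uu s := by
  unfold uu
  nlinarith [sq_nonneg (2 * s - s ^ 2 + 1 / 2)]

/-- `√(1 + r + r²)`. -/
noncomputable def qq (s : ℝ) : ℝ := Real.sqrt (uu s)

theorem qq_pos (s : ℝ) : 0 < qq s := Real.sqrt_pos.2 (uu_pos s)

theorem qq_sq (s : ℝ) : qq s ^ 2 = uu s := Real.sq_sqrt (uu_pos s).le

theorem qq_cont : Continuous qq := by
  unfold qq uu
  fun_prop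

/-- The path. -/
noncomputable def pth (l e σ : ℂ) (s : ℝ) : ℂ × ℂ :=
  (l ^ 2 * e * ((2 * s - s ^ 2 : ℝ) : ℂ), l ^ 3 * σ * (((1 - s) * qq s : ℝ) : ℂ))

theorem pth_deriv (l e σ : ℂ) (hl : l ≠ 0) (he : e ^ 3 = -1) (hσ : σ ^ 2 = -1) (s : ℝ) :
    HasDerivAt (pth l e σ)
      ((-(e * σ) / (l * (qq s : ℂ))) • ((2 * (pth l e σ s).2, -3 * (pth l e σ s).1 ^ 2) : ℂ × ℂ)) s := by
  have hq := qq_pos s
  have hq0 : (qq s : ℂ) ≠ 0 := by exact_mod_cast hq.ne'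
  have h1 : HasDerivAt (fun s : ℝ => 2 * s - s ^ 2) (2 - 2 * s) s := by
    have e1 := ((hasDerivAt_id s).const_mul 2).sub ((hasDerivAt_id s).pow 2)
    refine e1.congr_deriv ?_
    simp
  have h2 : HasDerivAt uu ((2 - 2 * s) + 2 * (2 * s - s ^ 2) * (2 - 2 * s)) s := by
    have e1 := (h1.const_add 1).add (h1.pow 2)
    refine e1.congr_deriv ?_
    simp
  have h3 : HasDerivAt qq (((2 - 2 * s) + 2 * (2 * s - s ^ 2) * (2 - 2 * s)) / (2 * qq s)) s :=
    h2.sqrt (uu_pos s).ne'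
  have h4 : HasDerivAt (fun s : ℝ => (1 - s) * qq s) (-3 * (2 * s - s ^ 2) ^ 2 / qq s) s := by
    have e1 := ((hasDerivAt_id s).const_sub 1).mul h3
    refine e1.congr_deriv ?_
    have h5 := qq_sq s
    unfold uu at h5
    simp only [id_eq]
    field_simp
    rw [h5]
    ring
  have h5 : HasDerivAt (fun s : ℝ => l ^ 2 * e * ((2 * s - s ^ 2 : ℝ) : ℂ)) (l ^ 2 * e * ((2 - 2 * s : ℝ) : ℂ)) s :=
    h1.ofReal_comp.const_mul _
  have h6 : HasDerivAt (fun s : ℝ => l ^ 3 * σ * (((1 - s) * qq s : ℝ) : ℂ))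
      (l ^ 3 * σ * ((-3 * (2 * s - s ^ 2) ^ 2 / qq s : ℝ) : ℂ)) s :=
    h4.ofReal_comp.const_mul _
  refine (h5.prodMk h6).congr_deriv ?_
  unfold pth
  refine Prod.ext ?_ ?_
  · simp only [Prod.smul_mk, smul_eq_mul]
    push_cast
    field_simp
    linear_combination (e * (1 - s : ℂ)) * hσ
  · simp only [Prod.smul_mk, smul_eq_mul]
    push_cast
    field_simp
    linear_combination (-(σ * ((s : ℂ) ^ 2 * (2 - s) ^ 2))) * he

/-- The curve. -/
theorem pth_curve (l e σ : ℂ) (he : e ^ 3 = -1) (hσ : σ ^ 2 = -1) (s : ℝ) :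
    (pth l e σ s).1 ^ 3 + (pth l e σ s).2 ^ 2 = -l ^ 6 := by
  have h5 : (qq s : ℂ) ^ 2 = ((uu s : ℝ) : ℂ) := by
    rw [← qq_sq]
    push_cast
    ring
  unfold uu at h5
  push_cast at h5
  unfold pth
  push_cast
  linear_combination (l ^ 6 * (2 * s - s ^ 2 : ℂ) ^ 3) * he + (l ^ 6 * (1 - s : ℂ) ^ 2 * (qq s : ℂ) ^ 2) * hσ -
    (l ^ 6 * (1 - s : ℂ) ^ 2) * h5

theorem pth_zero (l e σ : ℂ) : pth l e σ 0 = (0, l ^ 3 * σ) := by
  unfold pth qq uu
  simp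

theorem pth_two (l e σ : ℂ) : pth l e σ 2 = (0, -(l ^ 3 * σ)) := by
  unfold pth qq uu
  norm_num

theorem pth_cont (e σ : ℂ) : Continuous (fun q : ℂ × ℝ => pth q.1 e σ q.2) := by
  unfold pth
  have := qq_cont
  fun_prop

attribute [irreducible] pth

/-- The integral over a path. -/
theorem int_pth {Φ : ℂ × ℂ → ℂ} {ω : ℂ × ℂ → (ℂ × ℂ →L[ℂ] ℂ)} (hΦ : ∀ p, HasFDerivAt Φ (ω p) p) {G : ℂ × ℂ → ℂ}
    (hG : Continuous G) (l e σ : ℂ) (hl : l ≠ 0) (he : e ^ 3 = -1) (hσ : σ ^ 2 = -1)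
    (hval : ∀ s : ℝ, ω (pth l e σ s) (2 * (pth l e σ s).2, -3 * (pth l e σ s).1 ^ 2) = G (pth l e σ s)) :
    (-(e * σ) / l) * ∫ s in (0 : ℝ)..2, G (pth l e σ s) / (qq s : ℂ) = Φ (0, -(l ^ 3 * σ)) - Φ (0, l ^ 3 * σ) := by
  have hd : ∀ s ∈ uIcc (0 : ℝ) 2, HasDerivAt (fun s => Φ (pth l e σ s)) ((-(e * σ) / l) * (G (pth l e σ s) / (qq s : ℂ))) s := by
    intro s _
    have h1 := ((hΦ (pth l e σ s)).restrictScalars ℝ).comp_hasDerivAt s (pth_deriv l e σ hl he hσ s)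
    refine h1.congr_deriv ?_
    show ω (pth l e σ s) _ = _
    rw [map_smul, hval, smul_eq_mul]
    have hq0 : (qq s : ℂ) ≠ 0 := by exact_mod_cast (qq_pos s).ne'
    field_simp
  have hc : Continuous (fun s : ℝ => (-(e * σ) / l) * (G (pth l e σ s) / (qq s : ℂ))) := by
    have h1 : Continuous (fun s : ℝ => pth l e σ s) := (pth_cont e σ).comp (by fun_prop : Continuous fun s : ℝ => (l, s))
    have h2 := hG.comp h1
    have h3 : Continuous (fun s : ℝ => (qq s : ℂ)) := Complex.continuous_ofReal.comp qq_cont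
    refine continuous_const.mul (h2.div h3 fun s => ?_)
    exact_mod_cast (qq_pos s).ne'
  rw [← intervalIntegral.integral_const_mul, intervalIntegral.integral_eq_sub_of_hasDerivAt hd (hc.intervalIntegrable _ _),
    pth_zero, pth_two]

/-- The key lemma: closed 1-forms on the fibres `x = c` have limit zero on the vanishing cycle. -/
theorem key (y₀ : ℂ) {g : ℂ × ℂ × ℂ → ℂ} (hg : Continuous g) (ω : ℂ → ℂ × ℂ → (ℂ × ℂ →L[ℂ] ℂ))
    (hΦ : ∀ c : ℂ, c ≠ 0 → ∃ Φ : ℂ × ℂ → ℂ, ∀ p, HasFDerivAt Φ (ω c p) p)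
    (hval : ∀ c z t : ℂ, c ≠ 0 → c + c ^ 2 * y₀ + z ^ 3 + t ^ 2 = 0 →
      ω c (z, t) (2 * t, -3 * z ^ 2) = g (c, z, t)) : g (0, 0, 0) = 0 := by
  -- the second cube root of `-1`
  obtain ⟨e, he2⟩ : ∃ e : ℂ, e = (1 + (Real.sqrt 3 : ℂ) * I) / 2 := ⟨_, rfl⟩
  have hs3 : (Real.sqrt 3 : ℂ) ^ 2 = 3 := by
    rw [← Complex.ofReal_pow, Real.sq_sqrt (by norm_num)]
    norm_num
  have he1 : e ^ 2 - e + 1 = 0 := by
    rw [he2]
    linear_combination (1 / 4 * I ^ 2) * hs3 + (3 / 4) * Complex.I_sq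
  have he : e ^ 3 = -1 := by linear_combination (e + 1) * he1
  have hene : 1 + e ≠ 0 := by
    intro h
    have h1 := congrArg Complex.re h
    rw [he2] at h1
    simp at h1
    norm_num at h1
  -- the integral
  obtain ⟨Ψ, hΨ⟩ : ∃ Ψ : ℂ × ℂ → ℝ → ℂ, Ψ = fun q s =>
      (g (q.1, pth q.2 (-1) I s) + e * g (q.1, pth q.2 e (-I) s)) / (qq s : ℂ) := ⟨_, rfl⟩
  have hΨc : Continuous (Function.uncurry Ψ) := by
    rw [hΨ]
    have h3 : Continuous (fun q : (ℂ × ℂ) × ℝ => (qq q.2 : ℂ)) :=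
      Complex.continuous_ofReal.comp (qq_cont.comp continuous_snd)
    have hp : ∀ e σ : ℂ, Continuous (fun q : (ℂ × ℂ) × ℝ => g (q.1.1, pth q.1.2 e σ q.2)) := fun e σ =>
      hg.comp ((continuous_fst.comp continuous_fst).prodMk ((pth_cont e σ).comp
        ((continuous_snd.comp continuous_fst).prodMk continuous_snd)))
    refine Continuous.div ((hp (-1) I).add (continuous_const.mul (hp e (-I)))) h3 fun q => ?_
    exact_mod_cast (qq_pos q.2).ne'
  have hJ : Continuous (fun q => ∫ s in (0 : ℝ)..2, Ψ q s) :=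
    intervalIntegral.continuous_parametric_intervalIntegral_of_continuous' hΨc _ _
  have hzero : ∀ c l : ℂ, c ≠ 0 → l ≠ 0 → l ^ 6 = c + c ^ 2 * y₀ → ∫ s in (0 : ℝ)..2, Ψ (c, l) s = 0 := by
    intro c l hc hl hlc
    obtain ⟨Φ, hΦ'⟩ := hΦ c hc
    have hG : Continuous (fun p : ℂ × ℂ => g (c, p)) := hg.comp (continuous_const.prodMk continuous_id)
    have hI : (I : ℂ) ^ 2 = -1 := Complex.I_sq
    have hI' : (-I : ℂ) ^ 2 = -1 := by rw [neg_sq, Complex.I_sq]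
    have hm : (-1 : ℂ) ^ 3 = -1 := by norm_num
    have hv : ∀ e' σ : ℂ, e' ^ 3 = -1 → σ ^ 2 = -1 → ∀ s : ℝ,
        ω c (pth l e' σ s) (2 * (pth l e' σ s).2, -3 * (pth l e' σ s).1 ^ 2) = g (c, pth l e' σ s) := by
      intro e' σ h1 h2 s
      refine hval c _ _ hc ?_
      have h3 := pth_curve l e' σ h1 h2 s
      linear_combination h3 - hlc
    have i1 := int_pth hΦ' hG l (-1) I hl hm hI (hv _ _ hm hI)
    have i2 := int_pth hΦ' hG l e (-I) hl he hI' (hv _ _ he hI')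
    have hsum : ∫ s in (0 : ℝ)..2, Ψ (c, l) s = (∫ s in (0 : ℝ)..2, g (c, pth l (-1) I s) / (qq s : ℂ)) +
        e * ∫ s in (0 : ℝ)..2, g (c, pth l e (-I) s) / (qq s : ℂ) := by
      have hq : Continuous (fun s : ℝ => (qq s : ℂ)) := Complex.continuous_ofReal.comp qq_cont
      have hcs : ∀ e' σ : ℂ, Continuous (fun s : ℝ => g (c, pth l e' σ s) / (qq s : ℂ)) := by
        intro e' σ
        have h1 : Continuous (fun s : ℝ => pth l e' σ s) :=
          (pth_cont e' σ).comp (by fun_prop : Continuous fun s : ℝ => (l, s))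
        refine (hG.comp h1).div hq fun s => ?_
        exact_mod_cast (qq_pos s).ne'
      have i3 : IntervalIntegrable (fun s : ℝ => g (c, pth l (-1) I s) / (qq s : ℂ)) volume 0 2 :=
        (hcs _ _).intervalIntegrable _ _
      have i4 : IntervalIntegrable (fun s : ℝ => e * (g (c, pth l e (-I) s) / (qq s : ℂ))) volume 0 2 :=
        (continuous_const.mul (hcs _ _)).intervalIntegrable _ _
      rw [← intervalIntegral.integral_const_mul, ← intervalIntegral.integral_add i3 i4]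
      refine intervalIntegral.integral_congr fun s _ => ?_
      rw [hΨ]
      show (g (c, pth l (-1) I s) + e * g (c, pth l e (-I) s)) / (qq s : ℂ) = _
      ring
    rw [hsum]
    have h4 : (I / l) * ((∫ s in (0 : ℝ)..2, g (c, pth l (-1) I s) / (qq s : ℂ)) +
        e * ∫ s in (0 : ℝ)..2, g (c, pth l e (-I) s) / (qq s : ℂ)) = 0 := by
      have e1 : -(-1 * I) / l = I / l := by ring
      have e2 : -(e * -I) / l = (I / l) * e := by ring
      rw [e1] at i1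
      rw [e2] at i2
      have e3 : -(l ^ 3 * -I) = l ^ 3 * I := by ring
      have e4 : l ^ 3 * -I = -(l ^ 3 * I) := by ring
      rw [e3, e4] at i2
      linear_combination i1 + i2
    rcases mul_eq_zero.1 h4 with h5 | h5
    · exact absurd h5 (div_ne_zero Complex.I_ne_zero hl)
    · exact h5
  -- the curve of parameters
  obtain ⟨κ, hκ⟩ : ∃ κ : ℝ → ℂ, κ = fun m : ℝ => ((1 + (m : ℂ) ^ 6 * y₀ : ℂ) ^ ((((6 : ℕ) : ℂ)⁻¹) : ℂ) : ℂ) :=
    ⟨_, rfl⟩
  have hκ6 : ∀ m : ℝ, κ m ^ 6 = 1 + (m : ℂ) ^ 6 * y₀ := by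
    intro m
    rw [hκ]
    exact Complex.cpow_nat_inv_pow _ (by norm_num)
  have hbase : Tendsto (fun m : ℝ => 1 + (m : ℂ) ^ 6 * y₀) (𝓝[>] 0) (𝓝 1) := by
    have h1 : Continuous (fun m : ℝ => 1 + (m : ℂ) ^ 6 * y₀) := by fun_prop
    have h2 := h1.tendsto 0
    simp only [Complex.ofReal_zero, ne_eq, OfNat.ofNat_ne_zero, not_false_eq_true, zero_pow, zero_mul, add_zero] at h2
    exact h2.mono_left nhdsWithin_le_nhds
  have hκt : Tendsto κ (𝓝[>] 0) (𝓝 1) := by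
    have h1 : ContinuousAt (fun w : ℂ => w ^ (((6 : ℕ) : ℂ)⁻¹)) 1 :=
      continuousAt_cpow_const (Or.inl (by norm_num))
    have h2 := h1.tendsto.comp hbase
    rw [Complex.one_cpow] at h2
    rw [hκ]
    exact h2
  have hpar : Tendsto (fun m : ℝ => (((m : ℂ) ^ 6, (m : ℂ) * κ m) : ℂ × ℂ)) (𝓝[>] 0) (𝓝 (0, 0)) := by
    have h1 : Tendsto (fun m : ℝ => (m : ℂ)) (𝓝[>] 0) (𝓝 0) := by
      have h2 := Complex.continuous_ofReal.tendsto 0
      rw [Complex.ofReal_zero] at h2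
      exact h2.mono_left nhdsWithin_le_nhds
    have h3 := h1.pow 6
    rw [zero_pow (by norm_num)] at h3
    have h4 := h1.mul hκt
    rw [zero_mul] at h4
    exact h3.prodMk_nhds h4
  have hlim := (hJ.tendsto (0, 0)).comp hpar
  have hev : ∀ᶠ m : ℝ in 𝓝[>] 0, ((fun q => ∫ s in (0 : ℝ)..2, Ψ q s) ∘
      fun m : ℝ => (((m : ℂ) ^ 6, (m : ℂ) * κ m) : ℂ × ℂ)) m = 0 := by
    have h1 : ∀ᶠ m : ℝ in 𝓝[>] 0, κ m ≠ 0 := hκt.eventually_ne one_ne_zero
    filter_upwards [h1, self_mem_nhdsWithin] with m hm1 hm2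
    have hm0 : (m : ℂ) ≠ 0 := by exact_mod_cast (ne_of_gt hm2)
    refine hzero _ _ (pow_ne_zero _ hm0) (mul_ne_zero hm0 hm1) ?_
    rw [mul_pow, hκ6]
    ring
  have hfin : ∫ s in (0 : ℝ)..2, Ψ (0, 0) s = 0 :=
    tendsto_nhds_unique hlim ((tendsto_congr' hev).2 tendsto_const_nhds)
  -- the period
  have hp0 : ∀ e' σ : ℂ, ∀ s : ℝ, pth 0 e' σ s = (0, 0) := by
    intro e' σ s
    unfold pth
    simp
  have hval0 : ∀ s : ℝ, Ψ (0, 0) s = (1 + e) * g (0, 0, 0) * ((1 / qq s : ℝ) : ℂ) := by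
    intro s
    rw [hΨ]
    show (g (0, pth 0 (-1) I s) + e * g (0, pth 0 e (-I) s)) / (qq s : ℂ) = _
    rw [hp0, hp0]
    push_cast
    ring
  have hP : 0 < ∫ s in (0 : ℝ)..2, 1 / qq s := by
    refine intervalIntegral.intervalIntegral_pos_of_pos ?_ (fun s => one_div_pos.2 (qq_pos s)) (by norm_num)
    exact (continuous_const.div qq_cont fun s => (qq_pos s).ne').intervalIntegrable _ _
  have h7 : (1 + e) * g (0, 0, 0) * ((∫ s in (0 : ℝ)..2, 1 / qq s : ℝ) : ℂ) = 0 := by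
    refine Eq.trans ?_ hfin
    rw [← intervalIntegral.integral_ofReal, ← intervalIntegral.integral_const_mul]
    exact intervalIntegral.integral_congr fun s _ => (hval0 s).symm
  rcases mul_eq_zero.1 h7 with h8 | h8
  · rcases mul_eq_zero.1 h8 with h9 | h9
    · exact absurd h9 hene
    · exact h9
  · exact absurd (Complex.ofReal_eq_zero.1 h8) hP.ne'

end Pool.Agent.Lib.MP_331bf5_ag
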