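import Pool.Agent.Lib.MP_331bf5_ag.PartC
import Pool.Agent.Lib.MP_c0402d_ag.TE2

/-!
# Two holomorphic functions which are dependent on the fibres
-/

set_option autoImplicit false

open Complex Set Filter Topology MeasureTheory

namespace Pool.Agent.Lib.MP_331bf5_ag

/-- The form is closed. -/
theorem closed_aux {E : Type*} [NormedAddCommGroup E] [NormedSpace ℂ E] (V' W' : E → E →L[ℂ] ℂ) (q : E)
    (V2 W2 : E →L[ℂ] E →L[ℂ] ℂ) (hV : HasFDerivAt V' V2 q) (hW : HasFDerivAt W' W2 q)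
    (sV : ∀ a b, V2 a b = V2 b a) (sW : ∀ a b, W2 a b = W2 b a) (k h e : E)
    (hz : ∀ᶠ r in 𝓝 q, V' r k * W' r h - W' r k * V' r h = 0) :
    V2 k e * W' q h + V' q e * W2 k h - (W2 k e * V' q h + W' q e * V2 k h) =
      V2 h e * W' q k + V' q e * W2 h k - (W2 h e * V' q k + W' q e * V2 h k) := by
  have ev : ∀ (U' : E → E →L[ℂ] ℂ) (U2 : E →L[ℂ] E →L[ℂ] ℂ), HasFDerivAt U' U2 q → ∀ a : E,
      HasFDerivAt (fun r => U' r a) ((ContinuousLinearMap.apply ℂ ℂ a).comp U2) q := by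
    intro U' U2 hU a
    exact (ContinuousLinearMap.apply ℂ ℂ a).hasFDerivAt.comp q hU
  have h1 := ((ev V' V2 hV k).mul (ev W' W2 hW h)).sub ((ev W' W2 hW k).mul (ev V' V2 hV h))
  have h2 : HasFDerivAt (fun r => V' r k * W' r h - W' r k * V' r h) (0 : E →L[ℂ] ℂ) q := by
    have h3 : HasFDerivAt (fun _ : E => (0 : ℂ)) (0 : E →L[ℂ] ℂ) q := hasFDerivAt_const 0 q
    exact h3.congr_of_eventuallyEq hz
  have h4 := congrArg (fun L : E →L[ℂ] ℂ => L e) (h1.unique h2)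
  have h5 : V' q k * W2 e h + W' q h * V2 e k - (W' q k * V2 e h + V' q h * W2 e k) = 0 := h4
  rw [sV e k, sW e h, sV e h, sW e k] at h5
  rw [sV k h, sW k h]
  linear_combination h5

/-- The entry of `dv ∧ dw`. -/
noncomputable def bt (v w : (Fin 4 → ℂ) → ℂ) (i j : Fin 4) (p : Fin 4 → ℂ) : ℂ :=
  fderiv ℂ v p (Pi.single i 1) * fderiv ℂ w p (Pi.single j 1) -
    fderiv ℂ v p (Pi.single j 1) * fderiv ℂ w p (Pi.single i 1)

theorem fd_cont (v : (Fin 4 → ℂ) → ℂ) (hv : Differentiable ℂ v) (a : Fin 4 → ℂ) :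
    Continuous (fun p => fderiv ℂ v p a) := by
  have h1 := Pool.Agent.Arith.te2_dirderiv isOpen_univ hv.differentiableOn a
  exact (differentiableOn_univ.1 h1).continuous

theorem bt_cont (v w : (Fin 4 → ℂ) → ℂ) (hv : Differentiable ℂ v) (hw : Differentiable ℂ w) (i j : Fin 4) :
    Continuous (bt v w i j) :=
  ((fd_cont v hv _).mul (fd_cont w hw _)).sub ((fd_cont v hv _).mul (fd_cont w hw _))

theorem fd_sum (f : (Fin 4 → ℂ) →L[ℂ] ℂ) (a : Fin 4 → ℂ) :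
    f a = a 0 * f (Pi.single 0 1) + a 1 * f (Pi.single 1 1) + a 2 * f (Pi.single 2 1) + a 3 * f (Pi.single 3 1) := by
  have h1 : a = a 0 • (Pi.single 0 1 : Fin 4 → ℂ) + a 1 • (Pi.single 1 1 : Fin 4 → ℂ) +
      a 2 • (Pi.single 2 1 : Fin 4 → ℂ) + a 3 • (Pi.single 3 1 : Fin 4 → ℂ) := by
    funext i
    fin_cases i <;> simp
  conv_lhs => rw [h1]
  rw [map_add, map_add, map_add, map_smul, map_smul, map_smul, map_smul]
  rfl

/-- Two holomorphic functions whose restrictions to every fibre `x = c ≠ 0` are dependent are dependent at the points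
of the line `x = z = t = 0`. -/
theorem dependent (v w : (Fin 4 → ℂ) → ℂ) (hv : Differentiable ℂ v) (hw : Differentiable ℂ w)
    (hdep : ∀ c : ℂ, c ≠ 0 → ∀ q : ℂ × ℂ,
      fderiv ℂ (fun q => v (ch c q)) q (1, 0) * fderiv ℂ (fun q => w (ch c q)) q (0, 1) =
        fderiv ℂ (fun q => v (ch c q)) q (0, 1) * fderiv ℂ (fun q => w (ch c q)) q (1, 0))
    (y : ℂ) (a b : Fin 4 → ℂ) (ha : a 0 = 0) (hb : b 0 = 0) :
    fderiv ℂ v ![0, y, 0, 0] a * fderiv ℂ w ![0, y, 0, 0] b =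
      fderiv ℂ v ![0, y, 0, 0] b * fderiv ℂ w ![0, y, 0, 0] a := by
  -- the functions on the chart
  have hder : ∀ (u : (Fin 4 → ℂ) → ℂ), Differentiable ℂ u → ∀ c : ℂ, c ≠ 0 → ∀ q : ℂ × ℂ, ∀ (k : ℂ) (h : ℂ × ℂ),
      fderiv ℂ (fun r : ℂ × (ℂ × ℂ) => u (ch r.1 r.2)) (c, q) (k, h) =
        k * fderiv ℂ u (ch c q) (Pi.single 0 1) + (-(k + 3 * q.1 ^ 2 * h.1 + 2 * q.2 * h.2) / c ^ 2 +
          2 * (c + q.1 ^ 3 + q.2 ^ 2) * k / c ^ 3) * fderiv ℂ u (ch c q) (Pi.single 1 1) +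
          h.1 * fderiv ℂ u (ch c q) (Pi.single 2 1) + h.2 * fderiv ℂ u (ch c q) (Pi.single 3 1) := by
    intro u hu c hc q k h
    obtain ⟨L, hL, hval⟩ := ch_deriv c hc q
    have h1 : HasFDerivAt (fun r : ℂ × (ℂ × ℂ) => u (ch r.1 r.2)) ((fderiv ℂ u (ch c q)).comp L) (c, q) :=
      (hu (ch c q)).hasFDerivAt.comp (c, q) hL
    rw [h1.fderiv]
    show fderiv ℂ u (ch c q) (L (k, h)) = _
    rw [hval, fd_sum]
    rfl
  have hder2 : ∀ (u : (Fin 4 → ℂ) → ℂ), Differentiable ℂ u → ∀ c : ℂ, c ≠ 0 → ∀ q h : ℂ × ℂ,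
      fderiv ℂ (fun q => u (ch c q)) q h = fderiv ℂ (fun r : ℂ × (ℂ × ℂ) => u (ch r.1 r.2)) (c, q) (0, h) := by
    intro u hu c hc q h
    obtain ⟨L, hL, hval⟩ := ch_deriv c hc q
    have h1 : HasFDerivAt (fun r : ℂ × (ℂ × ℂ) => u (ch r.1 r.2)) ((fderiv ℂ u (ch c q)).comp L) (c, q) :=
      (hu (ch c q)).hasFDerivAt.comp (c, q) hL
    have h2 : HasFDerivAt (fun q => u (ch c q))
        (((fderiv ℂ u (ch c q)).comp L).comp (ContinuousLinearMap.inr ℂ ℂ (ℂ × ℂ))) q :=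
      h1.comp q (hasFDerivAt_prodMk_right c q)
    rw [h1.fderiv, h2.fderiv]
    rfl
  have hcd : ∀ (u : (Fin 4 → ℂ) → ℂ), Differentiable ℂ u → ∀ c : ℂ, c ≠ 0 → ∀ q : ℂ × ℂ,
      ContDiffAt ℂ 2 (fun r : ℂ × (ℂ × ℂ) => u (ch r.1 r.2)) (c, q) := by
    intro u hu c hc q
    have h1 : ContDiffAt ℂ 2 u (ch c q) :=
      (Pool.Agent.Arith.te2_contDiff isOpen_univ 2 hu.differentiableOn).contDiffAt univ_mem
    exact h1.comp (c, q) (ch_contDiffAt 2 c hc q)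
  -- the relation
  have hrel : ∀ c : ℂ, c ≠ 0 → ∀ q : ℂ × ℂ, c ^ 2 * bt v w 2 3 (ch c q) - 3 * q.1 ^ 2 * bt v w 1 3 (ch c q) +
      2 * q.2 * bt v w 1 2 (ch c q) = 0 := by
    intro c hc q
    have h1 := hdep c hc q
    rw [hder2 v hv c hc, hder2 w hw c hc, hder2 v hv c hc, hder2 w hw c hc, hder v hv c hc, hder w hw c hc,
      hder v hv c hc, hder w hw c hc] at h1
    unfold bt
    generalize fderiv ℂ v (ch c q) (Pi.single 0 1) = v0 at *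
    generalize fderiv ℂ v (ch c q) (Pi.single 1 1) = v1 at *
    generalize fderiv ℂ v (ch c q) (Pi.single 2 1) = v2 at *
    generalize fderiv ℂ v (ch c q) (Pi.single 3 1) = v3 at *
    generalize fderiv ℂ w (ch c q) (Pi.single 0 1) = w0 at *
    generalize fderiv ℂ w (ch c q) (Pi.single 1 1) = w1 at *
    generalize fderiv ℂ w (ch c q) (Pi.single 2 1) = w2 at *
    generalize fderiv ℂ w (ch c q) (Pi.single 3 1) = w3 at *
    simp only [zero_mul, zero_add, mul_zero, add_zero, mul_one, one_mul, zero_div] at h1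
    field_simp at h1
    have h5 : c ^ 2 * (c ^ 2 * (v2 * w3 - v3 * w2) - 3 * q.1 ^ 2 * (v1 * w3 - v3 * w1) +
        2 * q.2 * (v1 * w2 - v2 * w1)) = 0 := by
      linear_combination h1
    rcases mul_eq_zero.1 h5 with h6 | h6
    · exact absurd h6 (pow_ne_zero 2 hc)
    · exact h6
  obtain ⟨h13, h12⟩ := lim_aux (fun p => -bt v w 1 3 p) (bt v w 1 2) (bt v w 2 3) (bt_cont v w hv hw 1 3).neg
    (bt_cont v w hv hw 1 2) (bt_cont v w hv hw 2 3) (by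
      intro p hp h0
      have h1 := hrel (p 0) h0 (p 2, p 3)
      rw [ch_eq p hp h0] at h1
      linear_combination h1) y
  have h23 : bt v w 2 3 ![0, y, 0, 0] = 0 := by
    have hg : Continuous (fun r : ℂ × ℂ × ℂ => 2 * r.2.2 * bt v w 0 2 ![r.1, y, r.2.1, r.2.2] -
        3 * r.2.1 ^ 2 * bt v w 0 3 ![r.1, y, r.2.1, r.2.2] +
        (1 + 2 * r.1 * y) * bt v w 2 3 ![r.1, y, r.2.1, r.2.2]) := by
      have hp : Continuous (fun r : ℂ × ℂ × ℂ => (![r.1, y, r.2.1, r.2.2] : Fin 4 → ℂ)) := by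
        refine continuous_pi fun i => ?_
        fin_cases i
        · exact continuous_fst
        · exact continuous_const
        · exact continuous_fst.comp continuous_snd
        · exact continuous_snd.comp continuous_snd
      have h02 := (bt_cont v w hv hw 0 2).comp hp
      have h03 := (bt_cont v w hv hw 0 3).comp hp
      have h23 := (bt_cont v w hv hw 2 3).comp hp
      have c1 : Continuous (fun r : ℂ × ℂ × ℂ => 2 * r.2.2) := by fun_prop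
      have c2 : Continuous (fun r : ℂ × ℂ × ℂ => 3 * r.2.1 ^ 2) := by fun_prop
      have c3 : Continuous (fun r : ℂ × ℂ × ℂ => 1 + 2 * r.1 * y) := by fun_prop
      exact ((c1.mul h02).sub (c2.mul h03)).add (c3.mul h23)
    have hk := key y hg (fun c q =>
      ((fderiv ℂ (fun r : ℂ × (ℂ × ℂ) => v (ch r.1 r.2)) (c, q) (1, 0)) •
        ((fderiv ℂ (fun r : ℂ × (ℂ × ℂ) => w (ch r.1 r.2)) (c, q)).comp (ContinuousLinearMap.inr ℂ ℂ (ℂ × ℂ)))) -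
      ((fderiv ℂ (fun r : ℂ × (ℂ × ℂ) => w (ch r.1 r.2)) (c, q) (1, 0)) •
        ((fderiv ℂ (fun r : ℂ × (ℂ × ℂ) => v (ch r.1 r.2)) (c, q)).comp (ContinuousLinearMap.inr ℂ ℂ (ℂ × ℂ)))))
      ?_ ?_
    · have h1 : 2 * 0 * bt v w 0 2 ![0, y, 0, 0] - 3 * 0 ^ 2 * bt v w 0 3 ![0, y, 0, 0] +
          (1 + 2 * 0 * y) * bt v w 2 3 ![0, y, 0, 0] = 0 := hk
      linear_combination h1
    · intro c hc
      obtain ⟨V, hV⟩ : ∃ V : ℂ × (ℂ × ℂ) → ℂ, V = fun r : ℂ × (ℂ × ℂ) => v (ch r.1 r.2) := ⟨_, rfl⟩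
      obtain ⟨W, hW⟩ : ∃ W : ℂ × (ℂ × ℂ) → ℂ, W = fun r : ℂ × (ℂ × ℂ) => w (ch r.1 r.2) := ⟨_, rfl⟩
      rw [← hV, ← hW]
      have hVd := hcd v hv c hc
      have hWd := hcd w hw c hc
      rw [← hV] at hVd
      rw [← hW] at hWd
      have hdif : ∀ U : ℂ × (ℂ × ℂ) → ℂ, ∀ q : ℂ × ℂ, ContDiffAt ℂ 2 U (c, q) →
          HasFDerivAt (fderiv ℂ U) (fderiv ℂ (fderiv ℂ U) (c, q)) (c, q) := fun U q hU =>
        ((hU.fderiv_right (m := 1) (by norm_num)).differentiableAt (by norm_num)).hasFDerivAt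
      have hsym : ∀ U : ℂ × (ℂ × ℂ) → ℂ, ∀ q : ℂ × ℂ, ContDiffAt ℂ 2 U (c, q) → ∀ a b,
          fderiv ℂ (fderiv ℂ U) (c, q) a b = fderiv ℂ (fderiv ℂ U) (c, q) b a := by
        intro U q hU a b
        have h2 : IsSymmSndFDerivAt ℂ U (c, q) := by
          refine hU.isSymmSndFDerivAt ?_
          rw [minSmoothness_of_isRCLikeNormedField]
        exact h2 a b
      have hcomp : ∀ U : ℂ × (ℂ × ℂ) → ℂ, ∀ q : ℂ × ℂ, ContDiffAt ℂ 2 U (c, q) →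
          HasFDerivAt (fun q => fderiv ℂ U (c, q)) ((fderiv ℂ (fderiv ℂ U) (c, q)).comp
            (ContinuousLinearMap.inr ℂ ℂ (ℂ × ℂ))) q := fun U q hU =>
        (hdif U q hU).comp q (hasFDerivAt_prodMk_right c q)
      have hval1 : ∀ U : ℂ × (ℂ × ℂ) → ℂ, ∀ q : ℂ × ℂ, ContDiffAt ℂ 2 U (c, q) →
          HasFDerivAt (fun q => fderiv ℂ U (c, q) (1, 0)) ((ContinuousLinearMap.apply ℂ ℂ ((1, 0) : ℂ × (ℂ × ℂ))).comp
            ((fderiv ℂ (fderiv ℂ U) (c, q)).comp (ContinuousLinearMap.inr ℂ ℂ (ℂ × ℂ)))) q := fun U q hU =>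
        (ContinuousLinearMap.apply ℂ ℂ ((1, 0) : ℂ × (ℂ × ℂ))).hasFDerivAt.comp q (hcomp U q hU)
      have hval2 : ∀ U : ℂ × (ℂ × ℂ) → ℂ, ∀ q : ℂ × ℂ, ContDiffAt ℂ 2 U (c, q) →
          HasFDerivAt (fun q => (fderiv ℂ U (c, q)).comp (ContinuousLinearMap.inr ℂ ℂ (ℂ × ℂ)))
            (((ContinuousLinearMap.compL ℂ (ℂ × ℂ) (ℂ × (ℂ × ℂ)) ℂ).flip (ContinuousLinearMap.inr ℂ ℂ (ℂ × ℂ))).comp
            ((fderiv ℂ (fderiv ℂ U) (c, q)).comp (ContinuousLinearMap.inr ℂ ℂ (ℂ × ℂ)))) q := fun U q hU =>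
        ((ContinuousLinearMap.compL ℂ (ℂ × ℂ) (ℂ × (ℂ × ℂ)) ℂ).flip
          (ContinuousLinearMap.inr ℂ ℂ (ℂ × ℂ))).hasFDerivAt.comp q (hcomp U q hU)
      have hz : ∀ q a b : ℂ × ℂ, ∀ᶠ r in 𝓝 ((c, q) : ℂ × (ℂ × ℂ)),
          fderiv ℂ V r (0, a) * fderiv ℂ W r (0, b) - fderiv ℂ W r (0, a) * fderiv ℂ V r (0, b) = 0 := by
        intro q a b
        have h1 : ∀ᶠ r in 𝓝 ((c, q) : ℂ × (ℂ × ℂ)), r.1 ≠ 0 :=
          continuousAt_fst.eventually_ne hc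
        filter_upwards [h1] with r hr
        have h2 := hdep r.1 hr r.2
        rw [hder2 v hv r.1 hr, hder2 w hw r.1 hr, hder2 v hv r.1 hr, hder2 w hw r.1 hr, ← hV, ← hW] at h2
        have hlin : ∀ (f : ℂ × (ℂ × ℂ) →L[ℂ] ℂ) (a : ℂ × ℂ), f (0, a) = a.1 * f (0, (1, 0)) + a.2 * f (0, (0, 1)) := by
          intro f a
          have e1 : ((0, a) : ℂ × (ℂ × ℂ)) = a.1 • ((0, (1, 0)) : ℂ × (ℂ × ℂ)) + a.2 • ((0, (0, 1)) : ℂ × (ℂ × ℂ)) := by
            refine Prod.ext ?_ (Prod.ext ?_ ?_) <;> simp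
          rw [e1, map_add, map_smul, map_smul, smul_eq_mul, smul_eq_mul]
        have h3 : fderiv ℂ V r (0, (1, 0)) * fderiv ℂ W r (0, (0, 1)) =
            fderiv ℂ V r (0, (0, 1)) * fderiv ℂ W r (0, (1, 0)) := h2
        rw [hlin (fderiv ℂ V r) a, hlin (fderiv ℂ V r) b, hlin (fderiv ℂ W r) a, hlin (fderiv ℂ W r) b]
        linear_combination (a.1 * b.2 - a.2 * b.1) * h3
      refine poinc _ (fun q => (fderiv ℂ V (c, q) (1, 0) • (((ContinuousLinearMap.compL ℂ (ℂ × ℂ) (ℂ × (ℂ × ℂ)) ℂ).flip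
          (ContinuousLinearMap.inr ℂ ℂ (ℂ × ℂ))).comp ((fderiv ℂ (fderiv ℂ W) (c, q)).comp
          (ContinuousLinearMap.inr ℂ ℂ (ℂ × ℂ)))) + ((ContinuousLinearMap.apply ℂ ℂ ((1, 0) : ℂ × (ℂ × ℂ))).comp
          ((fderiv ℂ (fderiv ℂ V) (c, q)).comp (ContinuousLinearMap.inr ℂ ℂ (ℂ × ℂ)))).smulRight
          ((fderiv ℂ W (c, q)).comp (ContinuousLinearMap.inr ℂ ℂ (ℂ × ℂ)))) -
        (fderiv ℂ W (c, q) (1, 0) • (((ContinuousLinearMap.compL ℂ (ℂ × ℂ) (ℂ × (ℂ × ℂ)) ℂ).flip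
          (ContinuousLinearMap.inr ℂ ℂ (ℂ × ℂ))).comp ((fderiv ℂ (fderiv ℂ V) (c, q)).comp
          (ContinuousLinearMap.inr ℂ ℂ (ℂ × ℂ)))) + ((ContinuousLinearMap.apply ℂ ℂ ((1, 0) : ℂ × (ℂ × ℂ))).comp
          ((fderiv ℂ (fderiv ℂ W) (c, q)).comp (ContinuousLinearMap.inr ℂ ℂ (ℂ × ℂ)))).smulRight
          ((fderiv ℂ V (c, q)).comp (ContinuousLinearMap.inr ℂ ℂ (ℂ × ℂ))))) ?_ ?_
      · intro q
        exact ((hval1 V q (hVd q)).smul (hval2 W q (hWd q))).sub ((hval1 W q (hWd q)).smul (hval2 V q (hVd q)))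
      · intro q a b
        have h1 := closed_aux (fderiv ℂ V) (fderiv ℂ W) (c, q) _ _ (hdif V q (hVd q)) (hdif W q (hWd q))
          (hsym V q (hVd q)) (hsym W q (hWd q)) (0, a) (0, b) (1, 0) (hz q a b)
        show fderiv ℂ V (c, q) (1, 0) * fderiv ℂ (fderiv ℂ W) (c, q) (0, a) (0, b) +
          fderiv ℂ (fderiv ℂ V) (c, q) (0, a) (1, 0) * fderiv ℂ W (c, q) (0, b) -
          (fderiv ℂ W (c, q) (1, 0) * fderiv ℂ (fderiv ℂ V) (c, q) (0, a) (0, b) +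
          fderiv ℂ (fderiv ℂ W) (c, q) (0, a) (1, 0) * fderiv ℂ V (c, q) (0, b)) =
          fderiv ℂ V (c, q) (1, 0) * fderiv ℂ (fderiv ℂ W) (c, q) (0, b) (0, a) +
          fderiv ℂ (fderiv ℂ V) (c, q) (0, b) (1, 0) * fderiv ℂ W (c, q) (0, a) -
          (fderiv ℂ W (c, q) (1, 0) * fderiv ℂ (fderiv ℂ V) (c, q) (0, b) (0, a) +
          fderiv ℂ (fderiv ℂ W) (c, q) (0, b) (1, 0) * fderiv ℂ V (c, q) (0, a))
        linear_combination h1
    · intro c z t hc hcurve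
      have hch : ch c (z, t) = ![c, y, z, t] := by
        unfold ch
        have e1 : -(c + z ^ 3 + t ^ 2) / c ^ 2 = y := by
          field_simp
          linear_combination -hcurve
        show ![c, -(c + z ^ 3 + t ^ 2) / c ^ 2, z, t] = _
        rw [e1]
      have h3 := hrel c hc (z, t)
      rw [hch] at h3
      show fderiv ℂ (fun r : ℂ × (ℂ × ℂ) => v (ch r.1 r.2)) (c, (z, t)) (1, (0, 0)) *
        fderiv ℂ (fun r : ℂ × (ℂ × ℂ) => w (ch r.1 r.2)) (c, (z, t)) (0, (2 * t, -3 * z ^ 2)) -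
        fderiv ℂ (fun r : ℂ × (ℂ × ℂ) => w (ch r.1 r.2)) (c, (z, t)) (1, (0, 0)) *
        fderiv ℂ (fun r : ℂ × (ℂ × ℂ) => v (ch r.1 r.2)) (c, (z, t)) (0, (2 * t, -3 * z ^ 2)) =
        2 * t * bt v w 0 2 ![c, y, z, t] - 3 * z ^ 2 * bt v w 0 3 ![c, y, z, t] +
        (1 + 2 * c * y) * bt v w 2 3 ![c, y, z, t]
      obtain ⟨Y, hY⟩ : ∃ Y : ℂ, Y = -(1 + 2 * c * y) / c ^ 2 := ⟨_, rfl⟩
      have hY2 : c ^ 2 * Y = -(1 + 2 * c * y) := by
        rw [hY]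
        field_simp
      have e3 : -(1 + 3 * z ^ 2 * 0 + 2 * t * 0) / c ^ 2 + 2 * (c + z ^ 3 + t ^ 2) * 1 / c ^ 3 = Y := by
        have e2 : c + z ^ 3 + t ^ 2 = -(c ^ 2 * y) := by linear_combination hcurve
        rw [e2, hY]
        field_simp
        ring
      have e4 : -(0 + 3 * z ^ 2 * (2 * t) + 2 * t * (-3 * z ^ 2)) / c ^ 2 + 2 * (c + z ^ 3 + t ^ 2) * 0 / c ^ 3 = 0 := by
        ring
      rw [hder v hv c hc, hder w hw c hc, hder w hw c hc, hder v hv c hc, hch]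
      simp only at e3 e4 ⊢
      rw [e3, e4]
      unfold bt at h3 ⊢
      generalize fderiv ℂ v ![c, y, z, t] (Pi.single 0 1) = v0 at *
      generalize fderiv ℂ v ![c, y, z, t] (Pi.single 1 1) = v1 at *
      generalize fderiv ℂ v ![c, y, z, t] (Pi.single 2 1) = v2 at *
      generalize fderiv ℂ v ![c, y, z, t] (Pi.single 3 1) = v3 at *
      generalize fderiv ℂ w ![c, y, z, t] (Pi.single 0 1) = w0 at *
      generalize fderiv ℂ w ![c, y, z, t] (Pi.single 1 1) = w1 at *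
      generalize fderiv ℂ w ![c, y, z, t] (Pi.single 2 1) = w2 at *
      generalize fderiv ℂ w ![c, y, z, t] (Pi.single 3 1) = w3 at *
      have h3' : c ^ 2 * (v2 * w3 - v3 * w2) - 3 * z ^ 2 * (v1 * w3 - v3 * w1) +
        2 * t * (v1 * w2 - v2 * w1) = 0 := h3
      linear_combination Y * h3' - (v2 * w3 - v3 * w2) * hY2
  rw [fd_sum (fderiv ℂ v ![0, y, 0, 0]) a, fd_sum (fderiv ℂ v ![0, y, 0, 0]) b, fd_sum (fderiv ℂ w ![0, y, 0, 0]) a,
    fd_sum (fderiv ℂ w ![0, y, 0, 0]) b, ha, hb]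
  have h13' : -bt v w 1 3 ![0, y, 0, 0] = 0 := h13
  unfold bt at h13' h12 h23
  linear_combination (a 2 * b 3 - a 3 * b 2) * h23 - (a 1 * b 3 - a 3 * b 1) * h13' + (a 1 * b 2 - a 2 * b 1) * h12

end Pool.Agent.Lib.MP_331bf5_ag
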