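import Pool.Agent.Lib.MP_331bf5_ag.Chart

/-!
# Divergence free vector fields
-/

set_option autoImplicit false

open Complex Set Filter Topology MeasureTheory

namespace Pool.Agent.Lib.MP_331bf5_ag

/-- A holomorphic vector field `C ∂/∂y + A ∂/∂z + B ∂/∂t` on the cubic without divergence on the fibres `x = c ≠ 0`
vanishes on the line `x = z = t = 0`. -/
theorem fields (A B C : (Fin 4 → ℂ) → ℂ) (hA : Differentiable ℂ A) (hB : Differentiable ℂ B) (hC : Continuous C)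
    (ht : ∀ p ∈ RussellCubic, p 0 ≠ 0 → (p 0) ^ 2 * C p + 3 * (p 2) ^ 2 * A p + 2 * p 3 * B p = 0)
    (hdiv : ∀ c : ℂ, c ≠ 0 → ∀ q : ℂ × ℂ,
      fderiv ℂ (fun q => A (ch c q)) q (1, 0) + fderiv ℂ (fun q => B (ch c q)) q (0, 1) = 0) (y : ℂ) :
    A ![0, y, 0, 0] = 0 ∧ B ![0, y, 0, 0] = 0 ∧ C ![0, y, 0, 0] = 0 := by
  obtain ⟨h1, h2⟩ := lim_aux A B C hA.continuous hB.continuous hC ht y
  refine ⟨h1, h2, ?_⟩
  have hg : Continuous (fun r : ℂ × ℂ × ℂ => C ![r.1, y, r.2.1, r.2.2]) := by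
    refine hC.comp (continuous_pi fun i => ?_)
    fin_cases i
    · exact continuous_fst
    · exact continuous_const
    · exact continuous_fst.comp continuous_snd
    · exact continuous_snd.comp continuous_snd
  refine key y hg (fun c q => (A (ch c q) / c ^ 2) • ContinuousLinearMap.snd ℂ ℂ ℂ -
    (B (ch c q) / c ^ 2) • ContinuousLinearMap.fst ℂ ℂ ℂ) ?_ ?_
  · intro c hc
    have hAc : ∀ q, HasFDerivAt (fun q => A (ch c q) / c ^ 2)
        ((c ^ 2)⁻¹ • fderiv ℂ (fun q => A (ch c q)) q) q := by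
      intro q
      obtain ⟨L, hL, -⟩ := chc_deriv c hc q
      have e1 : DifferentiableAt ℂ (fun q => A (ch c q)) q := (hA _).comp q hL.differentiableAt
      have e2 := e1.hasFDerivAt.mul_const ((c ^ 2)⁻¹)
      exact e2
    have hBc : ∀ q, HasFDerivAt (fun q => B (ch c q) / c ^ 2)
        ((c ^ 2)⁻¹ • fderiv ℂ (fun q => B (ch c q)) q) q := by
      intro q
      obtain ⟨L, hL, -⟩ := chc_deriv c hc q
      have e1 : DifferentiableAt ℂ (fun q => B (ch c q)) q := (hB _).comp q hL.differentiableAt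
      have e2 := e1.hasFDerivAt.mul_const ((c ^ 2)⁻¹)
      exact e2
    refine poinc _ (fun q => ((c ^ 2)⁻¹ • fderiv ℂ (fun q => A (ch c q)) q).smulRight (ContinuousLinearMap.snd ℂ ℂ ℂ) -
      ((c ^ 2)⁻¹ • fderiv ℂ (fun q => B (ch c q)) q).smulRight (ContinuousLinearMap.fst ℂ ℂ ℂ)) ?_ ?_
    · intro q
      have e1 := (hAc q).smul_const (ContinuousLinearMap.snd ℂ ℂ ℂ)
      have e2 := (hBc q).smul_const (ContinuousLinearMap.fst ℂ ℂ ℂ)
      exact e1.sub e2
    · intro q a b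
      have hlin : ∀ (f : ℂ × ℂ →L[ℂ] ℂ) (a : ℂ × ℂ), f a = a.1 * f (1, 0) + a.2 * f (0, 1) := by
        intro f a
        have e1 : a = a.1 • ((1, 0) : ℂ × ℂ) + a.2 • ((0, 1) : ℂ × ℂ) := by
          refine Prod.ext ?_ ?_ <;> simp
        conv_lhs => rw [e1]
        rw [map_add, map_smul, map_smul, smul_eq_mul, smul_eq_mul]
      have hd := hdiv c hc q
      show (c ^ 2)⁻¹ * fderiv ℂ (fun q => A (ch c q)) q a * b.2 - (c ^ 2)⁻¹ * fderiv ℂ (fun q => B (ch c q)) q a * b.1 =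
        (c ^ 2)⁻¹ * fderiv ℂ (fun q => A (ch c q)) q b * a.2 - (c ^ 2)⁻¹ * fderiv ℂ (fun q => B (ch c q)) q b * a.1
      rw [hlin (fderiv ℂ (fun q => A (ch c q)) q) a, hlin (fderiv ℂ (fun q => A (ch c q)) q) b,
        hlin (fderiv ℂ (fun q => B (ch c q)) q) a, hlin (fderiv ℂ (fun q => B (ch c q)) q) b]
      linear_combination ((c ^ 2)⁻¹ * (a.1 * b.2 - a.2 * b.1)) * hd
  · intro c z t hc hcurve
    have hch : ch c (z, t) = ![c, y, z, t] := by
      unfold ch
      have e1 : -(c + z ^ 3 + t ^ 2) / c ^ 2 = y := by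
        field_simp
        linear_combination -hcurve
      show ![c, -(c + z ^ 3 + t ^ 2) / c ^ 2, z, t] = _
      rw [e1]
    have h3 := ht _ (ch_mem c hc (z, t)) hc
    rw [hch] at h3
    have h4 : c ^ 2 * C ![c, y, z, t] + 3 * z ^ 2 * A ![c, y, z, t] + 2 * t * B ![c, y, z, t] = 0 := h3
    show A (ch c (z, t)) / c ^ 2 * (-3 * z ^ 2) - B (ch c (z, t)) / c ^ 2 * (2 * t) = C ![c, y, z, t]
    rw [hch]
    field_simp
    linear_combination -h4

end Pool.Agent.Lib.MP_331bf5_ag
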